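import Pool.Agent.Q140.FRM.Wind

/-!
# Membranes and critical points
-/

set_option autoImplicit false

namespace Pool.Agent.Q140.FRM

open Metric Set Complex Filter Topology Asymptotics

variable {E : Type*} [NormedAddCommGroup E] [NormedSpace ℝ E]

/-- A differentiable curve with values in an embedded closed curve is tangent to it. -/
theorem tangent {h g : ℝ → E} {t₀ a : ℝ} {h' g' : E} (hh : HasDerivAt h h' t₀) (h0 : h' ≠ 0)
    (hc : Continuous h) (hper : Function.Periodic h (2 * Real.pi))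
    (hinj : ∀ s t, h s = h t → ∃ n : ℤ, s = t + n * (2 * Real.pi))
    (hg : HasDerivAt g g' a) (hga : g a = h t₀) (hr : ∀ θ, g θ ∈ range h)
    (l : E →L[ℝ] ℝ) (hl : l h' = 0) : l g' = 0 := by
  have hpi := Real.pi_pos
  have hex : ∀ θ, ∃ t ∈ Ico (t₀ - Real.pi) (t₀ - Real.pi + 2 * Real.pi), h t = g θ := by
    intro θ
    obtain ⟨s, hs⟩ := hr θ
    obtain ⟨t, ht, hst⟩ := hper.exists_mem_Ico (by positivity) s (t₀ - Real.pi)
    exact ⟨t, ht, by rw [← hst, hs]⟩
  choose τ hτ1 hτ2 using hex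
  have hlim : Tendsto τ (𝓝 a) (𝓝 t₀) := by
    rw [_root_.tendsto_nhds]
    intro U hU hUt
    set K := Icc (t₀ - Real.pi) (t₀ + Real.pi) \ U with hK
    have hKc : IsCompact K := isCompact_Icc.diff hU
    have hKi : IsClosed (h '' K) := (hKc.image hc).isClosed
    have hnot : g a ∉ h '' K := by
      rintro ⟨s, hs, hs2⟩
      rw [hga] at hs2
      obtain ⟨n, hn⟩ := hinj _ _ hs2
      have hn0 : n = 0 := by
        have h1 := hs.1.1
        have h2 := hs.1.2
        rw [hn] at h1 h2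
        have h3 : (n : ℝ) * 2 ≤ 1 := by
          by_contra hcon; push Not at hcon; nlinarith
        have h4 : -1 ≤ (n : ℝ) * 2 := by
          by_contra hcon; push Not at hcon; nlinarith
        have h5 : n * 2 ≤ 1 := by exact_mod_cast h3
        have h6 : -1 ≤ n * 2 := by exact_mod_cast h4
        omega
      rw [hn0] at hn
      simp at hn
      rw [hn] at hs
      exact hs.2 hUt
    have hev : ∀ᶠ θ in 𝓝 a, g θ ∉ h '' K :=
      hg.continuousAt.eventually_mem (hKi.isOpen_compl.mem_nhds hnot)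
    filter_upwards [hev] with θ hθ
    show τ θ ∈ U
    by_contra hτU
    refine hθ ⟨τ θ, ⟨⟨(hτ1 θ).1, ?_⟩, hτU⟩, hτ2 θ⟩
    linarith [(hτ1 θ).2]
  have h1 : (fun t => l (h t) - l (h t₀)) =o[𝓝 t₀] fun t => t - t₀ := by
    have h2 : HasDerivAt (fun t => l (h t)) (l h') t₀ := l.hasFDerivAt.comp_hasDerivAt t₀ hh
    rw [hl, hasDerivAt_iff_isLittleO] at h2
    simpa using h2
  have h3 : (fun t => t - t₀) =O[𝓝 t₀] fun t => h t - h t₀ :=
    (HasDerivAtFilter.isTheta_sub hh h0).symm.isBigO.comp_tendsto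
      (tendsto_id.prodMk tendsto_const_pure)
  have h4 : (fun θ => l (g θ) - l (g a)) =o[𝓝 a] fun θ => θ - a := by
    have h5 := (h1.trans_isBigO h3).comp_tendsto hlim
    have h6 : (fun θ => l (g θ) - l (g a)) =o[𝓝 a] fun θ => g θ - g a := by
      simpa [Function.comp_def, hτ2, hga] using h5
    exact h6.trans_isBigO hg.isBigO_sub
  have h7 : HasDerivAt (fun θ => l (g θ)) 0 a := by
    rw [hasDerivAt_iff_isLittleO]
    simpa using h4
  exact (l.hasFDerivAt.comp_hasDerivAt a hg).unique h7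

/-- the closed unit disk -/
abbrev Disk : Set ℂ := closedBall 0 1

theorem disk_unique : UniqueDiffOn ℝ Disk := by
  refine uniqueDiffOn_convex (convex_closedBall _ _) ?_
  rw [interior_closedBall _ one_ne_zero]
  exact ⟨0, mem_ball_self one_pos⟩

theorem deriv_ep (t : ℝ) : HasDerivAt ep (I * ep t) t := by
  have h2 : HasDerivAt (fun s : ℝ => (s : ℂ) * I) (1 * I) t :=
    (Complex.ofRealCLM.hasDerivAt (x := t)).mul_const I
  have := h2.cexp
  unfold ep
  convert this using 1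
  ring

theorem exists_ep {z : ℂ} (h : z ∈ sphere (0 : ℂ) 1) : z = ep (arg z) := by
  have h1 : ‖z‖ = 1 := by simpa using h
  have := norm_mul_exp_arg_mul_I z
  rw [h1, ofReal_one, one_mul] at this
  exact this.symm

/-- If all critical values of `η` on an embedded closed curve are `m` or `M`, and the value `M` is
taken at several, but finitely many points, then `η` has a critical point on each membrane. -/
theorem exists_critical {h : ℝ → E} (hd : Differentiable ℝ h)
    (hper : Function.Periodic h (2 * Real.pi)) (h0 : ∀ t, deriv h t ≠ 0)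
    (hinj : ∀ s t, h s = h t → ∃ n : ℤ, s = t + n * (2 * Real.pi))
    (η : E →L[ℝ] ℝ) {m M : ℝ} (hm : ∀ t, m ≤ η (h t)) (hM : ∀ t, η (h t) ≤ M)
    (hcr : ∀ t, η (deriv h t) = 0 → η (h t) = M ∨ η (h t) = m)
    (hfin : {x ∈ range h | η x = M}.Finite) {t₁ t₂ : ℝ} (ht : h t₁ ≠ h t₂)
    (ht1 : η (h t₁) = M) (ht2 : η (h t₂) = M) {H : ℂ → E} (hH : ContDiffOn ℝ 1 H Disk)
    (hi : ∀ z ∈ Disk, Function.Injective (fderivWithin ℝ H Disk z))
    (hb : H '' sphere 0 1 = range h) :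
    ∃ z ∈ Disk, ∀ v, η (fderivWithin ℝ H Disk z v) = 0 := by
  by_contra hcon
  push Not at hcon
  have hD : ∀ z ∈ Disk, HasFDerivWithinAt H (fderivWithin ℝ H Disk z) Disk z := fun z hz =>
    ((hH.differentiableOn one_ne_zero) z hz).hasFDerivWithinAt
  have hg : ∀ θ, HasDerivAt (fun s => H (ep s)) (fderivWithin ℝ H Disk (ep θ) (I * ep θ)) θ := by
    intro θ
    have h3 := (hD _ (ep_mem θ)).comp_hasDerivWithinAt (s := univ) θ
      ((deriv_ep θ).hasDerivWithinAt (s := univ)) fun s _ => ep_mem s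
    exact h3.hasDerivAt univ_mem
  have hgr : ∀ θ, H (ep θ) ∈ range h := by
    intro θ
    rw [← hb]
    exact ⟨ep θ, by simp [norm_ep], rfl⟩
  have hsurj : ∀ t, ∃ θ, H (ep θ) = h t := by
    intro t
    have : h t ∈ H '' sphere 0 1 := by rw [hb]; exact ⟨t, rfl⟩
    obtain ⟨z, hz, hz2⟩ := this
    exact ⟨arg z, by rw [← exists_ep hz, hz2]⟩
  have hgper : Function.Periodic (fun θ => H (ep θ)) (2 * Real.pi) := fun θ => by
    simp only [ep_period]
  have hcr' : ∀ θ, η (fderivWithin ℝ H Disk (ep θ) (I * ep θ)) = 0 →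
      η (H (ep θ)) = M ∨ η (H (ep θ)) = m := by
    intro θ hθ
    obtain ⟨s, hs⟩ := hgr θ
    rw [← hs]
    refine hcr s ?_
    by_contra hne
    set g' := fderivWithin ℝ H Disk (ep θ) (I * ep θ) with hg'
    have hg0 : g' ≠ 0 := by
      intro h1
      have h2 := hi _ (ep_mem θ) (h1.trans (map_zero _).symm)
      have h3 : ‖I * ep θ‖ = 1 := by rw [norm_mul, norm_I, norm_ep, mul_one]
      rw [h2, norm_zero] at h3
      exact zero_ne_one h3
    obtain ⟨ζ, -, hζ⟩ := exists_dual_vector ℝ g' (norm_ne_zero_iff.2 hg0)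
    have hζ0 : ζ g' ≠ 0 := by
      rw [hζ]
      simpa using hg0
    have h5 := tangent (hd s).hasDerivAt (h0 s) hd.continuous hper hinj (hg θ) hs.symm hgr
      (ζ - (ζ (deriv h s) / η (deriv h s)) • η) (by
        simp only [_root_.sub_apply, _root_.smul_apply, smul_eq_mul]
        field_simp
        ring)
    simp only [_root_.sub_apply, _root_.smul_apply, smul_eq_mul] at h5
    rw [← hg', hθ, mul_zero, sub_zero] at h5
    exact hζ0 h5
  have hφ : ∀ θ, HasDerivAt (fun s => η (H (ep s)))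
      (η (fderivWithin ℝ H Disk (ep θ) (I * ep θ))) θ := fun θ =>
    η.hasFDerivAt.comp_hasDerivAt θ (hg θ)
  have hgc : Continuous fun θ => H (ep θ) :=
    continuous_iff_continuousAt.2 fun θ => (hg θ).continuousAt
  have hbet : ∀ a b : ℝ, a < b → H (ep a) ≠ H (ep b) → η (H (ep a)) = M → η (H (ep b)) = M →
      ∃ c ∈ Ioo a b, η (H (ep c)) = m := by
    intro a b hab hne ha hb'
    obtain ⟨c, hc, hmin⟩ := isCompact_Icc.exists_isMinOn (⟨a, le_rfl, hab.le⟩ : (Icc a b).Nonempty)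
      (η.continuous.comp hgc).continuousOn
    have hc1 : η (H (ep c)) ≠ M := by
      intro hcM
      have hall : ∀ x ∈ Icc a b, η (H (ep x)) = M := by
        intro x hx
        obtain ⟨s, hs⟩ := hgr x
        refine le_antisymm (hs ▸ hM s) ?_
        rw [← hcM]
        exact hmin hx
      have hinf := (isPreconnected_Icc.image _ hgc.continuousOn : IsPreconnected
        ((fun θ => H (ep θ)) '' Icc a b)).infinite_of_nontrivial
        ⟨_, ⟨a, ⟨le_rfl, hab.le⟩, rfl⟩, _, ⟨b, ⟨hab.le, le_rfl⟩, rfl⟩, hne⟩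
      refine hinf (hfin.subset ?_)
      rintro _ ⟨x, hx, rfl⟩
      exact ⟨hgr x, hall x hx⟩
    have hca : a ≠ c := by rintro rfl; exact hc1 ha
    have hcb : c ≠ b := by rintro rfl; exact hc1 hb'
    have hcI : c ∈ Ioo a b := ⟨lt_of_le_of_ne hc.1 hca, lt_of_le_of_ne hc.2 hcb⟩
    refine ⟨c, hcI, ?_⟩
    have h1 : IsLocalMin (fun s => η (H (ep s))) c := hmin.isLocalMin (Icc_mem_nhds hcI.1 hcI.2)
    have h2 := h1.hasDerivAt_eq_zero (hφ c)
    exact (hcr' c h2).resolve_left hc1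
  obtain ⟨θ₁, hθ₁⟩ := hsurj t₁
  obtain ⟨θ', hθ'⟩ := hsurj t₂
  obtain ⟨θ₂, hθ₂, hθ₂'⟩ := hgper.exists_mem_Ico (by positivity) θ' θ₁
  rw [hθ'] at hθ₂'
  have h12 : θ₁ ≠ θ₂ := by
    rintro rfl
    exact ht (hθ₁.symm.trans hθ₂'.symm)
  have h12' : θ₁ < θ₂ := lt_of_le_of_ne hθ₂.1 h12
  obtain ⟨c, hc, hc2⟩ := hbet θ₁ θ₂ h12' (by rw [hθ₁, ← hθ₂']; exact ht) (by rw [hθ₁, ht1])
    (by rw [← hθ₂', ht2])
  obtain ⟨d, hd', hd2⟩ := hbet θ₂ (θ₁ + 2 * Real.pi) hθ₂.2
    (by rw [ep_period, hθ₁, ← hθ₂']; exact ht.symm) (by rw [← hθ₂', ht2])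
    (by rw [ep_period, hθ₁, ht1])
  refine no_critical (f := fun z => η (H z)) (f' := fun z => η.comp (fderivWithin ℝ H Disk z))
    (m := m) (M := M) (fun z hz => η.hasFDerivAt.comp_hasFDerivWithinAt z (hD z hz)) ?_ ?_ ?_ ?_
    ?_ hc.1 hc.2 hd'.1 hd'.2 (by rw [hθ₁, ht1]) hc2 (by rw [← hθ₂', ht2]) hd2
  · exact (ContinuousLinearMap.compL ℝ ℂ E ℝ η).continuous.comp_continuousOn
      (hH.continuousOn_fderivWithin disk_unique (le_refl _))
  · intro z hz h1
    obtain ⟨v, hv⟩ := hcon z hz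
    exact hv (by simpa using congrArg (fun T : ℂ →L[ℝ] ℝ => T v) h1)
  · intro θ
    obtain ⟨s, hs⟩ := hgr θ
    rw [← hs]; exact hm s
  · intro θ
    obtain ⟨s, hs⟩ := hgr θ
    rw [← hs]; exact hM s
  · intro θ hθ
    exact hcr' θ hθ

end Pool.Agent.Q140.FRM
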