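import Pool.Agent.Q140.FRM.Bound

/-!
# The curve: a perturbed doubly traversed circle
-/

set_option autoImplicit false

namespace Pool.Agent.Q140.FRM

open Set Filter Topology
open scoped ContDiff

/-- the ring of smooth `2π`-periodic functions -/
def PS : Subring (ℝ → ℝ) where
  carrier := {f | ContDiff ℝ ∞ f ∧ Function.Periodic f (2 * Real.pi)}
  mul_mem' h1 h2 := ⟨h1.1.mul h2.1, h1.2.mul h2.2⟩
  one_mem' := ⟨contDiff_const, fun _ => rfl⟩
  add_mem' h1 h2 := ⟨h1.1.add h2.1, h1.2.add h2.2⟩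
  zero_mem' := ⟨contDiff_const, fun _ => rfl⟩
  neg_mem' h1 := ⟨h1.1.neg, fun x => by simp only [Pi.neg_apply]; rw [h1.2 x]⟩

/-- `sin 2t - β cos 2t` -/
noncomputable def kp (b : ℝ) (t : ℝ) : ℝ := Real.sin (2 * t) - b * Real.cos (2 * t)

theorem cos2_mem : (fun t => Real.cos (2 * t)) ∈ PS := by
  refine ⟨by fun_prop, fun t => ?_⟩
  show Real.cos (2 * (t + 2 * Real.pi)) = Real.cos (2 * t)
  rw [show 2 * (t + 2 * Real.pi) = 2 * t + 2 * Real.pi + 2 * Real.pi by ring,
    Real.cos_add_two_pi, Real.cos_add_two_pi]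

theorem sin2_mem : (fun t => Real.sin (2 * t)) ∈ PS := by
  refine ⟨by fun_prop, fun t => ?_⟩
  show Real.sin (2 * (t + 2 * Real.pi)) = Real.sin (2 * t)
  rw [show 2 * (t + 2 * Real.pi) = 2 * t + 2 * Real.pi + 2 * Real.pi by ring,
    Real.sin_add_two_pi, Real.sin_add_two_pi]

theorem const_mem (c : ℝ) : (fun _ => c) ∈ PS := ⟨contDiff_const, fun _ => rfl⟩

theorem kp_mem (b : ℝ) : kp b ∈ PS :=
  PS.sub_mem sin2_mem (PS.mul_mem (const_mem b) cos2_mem)

theorem cos_mem : Real.cos ∈ PS := ⟨Real.contDiff_cos, Real.cos_periodic⟩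

theorem sin_mem : Real.sin ∈ PS := ⟨Real.contDiff_sin, Real.sin_periodic⟩

theorem coprime_kp {a b : ℝ} (h : a ≠ b) :
    IsCoprime (⟨kp a, kp_mem a⟩ : PS) ⟨kp b, kp_mem b⟩ := by
  have hab : b - a ≠ 0 := sub_ne_zero.2 h.symm
  refine ⟨⟨fun t => (b - a)⁻¹ * (b * Real.sin (2 * t) + Real.cos (2 * t)),
    PS.mul_mem (const_mem _) (PS.add_mem (PS.mul_mem (const_mem _) sin2_mem) cos2_mem)⟩,
    ⟨fun t => -((b - a)⁻¹ * (a * Real.sin (2 * t) + Real.cos (2 * t))),
    PS.neg_mem (PS.mul_mem (const_mem _) (PS.add_mem (PS.mul_mem (const_mem _) sin2_mem)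
      cos2_mem))⟩, ?_⟩
  apply Subtype.ext
  funext t
  show (b - a)⁻¹ * (b * Real.sin (2 * t) + Real.cos (2 * t)) * kp a t +
    -((b - a)⁻¹ * (a * Real.sin (2 * t) + Real.cos (2 * t))) * kp b t = 1
  unfold kp
  have := Real.sin_sq_add_cos_sq (2 * t)
  field_simp
  linear_combination (b - a) * this

/-- interpolation -/
theorem exists_p (S : Finset (ℝ × ℝ)) (h1 : ∀ a ∈ S, ∀ b ∈ S, a ≠ b → a.1 ≠ b.1)
    (h2 : ∀ a ∈ S, a.1 ≠ 0) :
    ∃ p ∈ PS, p (Real.pi / 2) ≠ p (3 * Real.pi / 2) ∧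
      ∀ a ∈ S, ∃ q ∈ PS, ∀ t, p t + a.2 * Real.cos t = kp a.1 t ^ 2 * q t := by
  classical
  obtain ⟨r, hr⟩ := Ideal.exists_forall_sub_mem_ideal (R := PS)
    (I := fun a : S => Ideal.span {(⟨kp a.1.1, kp_mem a.1.1⟩ : PS) ^ 2}) (by
      intro a b hab
      show IsCoprime _ _
      rw [Ideal.isCoprime_span_singleton_iff]
      refine (coprime_kp ?_).pow
      exact h1 _ a.2 _ b.2 fun h => hab (Subtype.ext h))
    (fun a => ⟨fun t => -(a.1.2 * Real.cos t),
      PS.neg_mem (PS.mul_mem (const_mem _) cos_mem)⟩)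
  have hr' : ∀ a ∈ S, ∃ q ∈ PS, ∀ t, r.1 t + a.2 * Real.cos t = kp a.1 t ^ 2 * q t := by
    intro a ha
    obtain ⟨q, hq⟩ := Ideal.mem_span_singleton'.1 (hr ⟨a, ha⟩)
    refine ⟨q.1, q.2, fun t => ?_⟩
    have := congrFun (congrArg Subtype.val hq) t
    simp only [Subring.coe_mul, Subring.coe_pow, Pi.mul_apply, Pi.pow_apply,
      AddSubgroupClass.coe_sub, Pi.sub_apply] at this
    linarith
  by_cases h : r.1 (Real.pi / 2) = r.1 (3 * Real.pi / 2)
  · refine ⟨fun t => r.1 t + Real.sin t * ∏ a ∈ S, kp a.1 t ^ 2, ?_, ?_, ?_⟩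
    · refine PS.add_mem r.2 (PS.mul_mem sin_mem ?_)
      have : (fun t => ∏ a ∈ S, kp a.1 t ^ 2) = ∏ a ∈ S, kp a.1 ^ 2 := by
        funext t; simp
      rw [this]
      exact PS.prod_mem fun a _ => PS.pow_mem (kp_mem a.1) 2
    · simp only
      rw [h, Real.sin_pi_div_two]
      have hs : Real.sin (3 * Real.pi / 2) = -1 := by
        rw [show 3 * Real.pi / 2 = Real.pi / 2 + Real.pi by ring, Real.sin_add_pi,
          Real.sin_pi_div_two]
      have hk : ∀ b, kp b (Real.pi / 2) = b := by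
        intro b
        rw [kp, show 2 * (Real.pi / 2) = Real.pi by ring, Real.sin_pi, Real.cos_pi]; ring
      have hk' : ∀ b, kp b (3 * Real.pi / 2) = b := by
        intro b
        rw [kp, show 2 * (3 * Real.pi / 2) = Real.pi + 2 * Real.pi by ring, Real.sin_add_two_pi,
          Real.cos_add_two_pi, Real.sin_pi, Real.cos_pi]; ring
      rw [hs]
      simp only [hk, hk']
      have hpos : 0 < ∏ a ∈ S, a.1 ^ 2 :=
        Finset.prod_pos fun a ha => by have := h2 a ha; positivity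
      intro hcon
      linarith
    · intro a ha
      obtain ⟨q, hq, hq2⟩ := hr' a ha
      refine ⟨fun t => q t + Real.sin t * ∏ b ∈ S.erase a, kp b.1 t ^ 2, ?_, fun t => ?_⟩
      · refine PS.add_mem hq (PS.mul_mem sin_mem ?_)
        have : (fun t => ∏ b ∈ S.erase a, kp b.1 t ^ 2) = ∏ b ∈ S.erase a, kp b.1 ^ 2 := by
          funext t; simp
        rw [this]
        exact PS.prod_mem fun b _ => PS.pow_mem (kp_mem b.1) 2
      · have := hq2 t
        simp only
        rw [← Finset.mul_prod_erase S _ ha]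
        linear_combination this
  · exact ⟨r.1, r.2, h, hr'⟩

theorem bdd_of_mem {f : ℝ → ℝ} (hf : Continuous f) (hp : Function.Periodic f (2 * Real.pi)) :
    ∃ C, 0 < C ∧ ∀ t, |f t| ≤ C := by
  obtain ⟨C, hC⟩ := (hp.compact_of_continuous (by positivity) hf).isBounded.exists_norm_le
  exact ⟨max C 1, by positivity, fun t => (hC _ ⟨t, rfl⟩).trans (le_max_left _ _)⟩

/-- the height function -/
noncomputable def ht (p : ℝ → ℝ) (e : ℝ) (a : ℝ × ℝ) (t : ℝ) : ℝ :=
  Real.cos (2 * t) + a.1 * Real.sin (2 * t) + e * (p t + a.2 * Real.cos t)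

theorem exists_profile (S : Finset (ℝ × ℝ)) (h1 : ∀ a ∈ S, ∀ b ∈ S, a ≠ b → a.1 ≠ b.1)
    (h2 : ∀ a ∈ S, a.1 ≠ 0) :
    ∃ p ∈ PS, ∃ e : ℝ, 0 < e ∧ p (Real.pi / 2) ≠ p (3 * Real.pi / 2) ∧
      ∀ a ∈ S, ∀ t, (deriv (ht p e a) t = 0 → kp a.1 t = 0) ∧
        (kp a.1 t = 0 → ht p e a t = Real.cos (2 * t) + a.1 * Real.sin (2 * t)) := by
  classical
  obtain ⟨p, hp, hp2, hq⟩ := exists_p S h1 h2
  choose! q hqm hqe using hq
  have hd : ∀ a ∈ S, ∀ (e t : ℝ), HasDerivAt (ht p e a)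
      (-(kp a.1 t * (2 - e * (2 * (2 * Real.cos (2 * t) + a.1 * (2 * Real.sin (2 * t))) * q a t +
        kp a.1 t * deriv (q a) t)))) t := by
    intro a ha e t
    have hqd : HasDerivAt (q a) (deriv (q a) t) t :=
      ((hqm a ha).1.differentiable (by simp) t).hasDerivAt
    have hc : HasDerivAt (fun s => Real.cos (2 * s)) (-Real.sin (2 * t) * 2) t := by
      exact ((Real.hasDerivAt_cos (2 * t)).comp t ((hasDerivAt_id t).const_mul 2)).congr_deriv
        (by simp)
    have hs : HasDerivAt (fun s => Real.sin (2 * s)) (Real.cos (2 * t) * 2) t := by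
      exact ((Real.hasDerivAt_sin (2 * t)).comp t ((hasDerivAt_id t).const_mul 2)).congr_deriv
        (by simp)
    have hk : HasDerivAt (kp a.1) (Real.cos (2 * t) * 2 - a.1 * (-Real.sin (2 * t) * 2)) t :=
      hs.sub (hc.const_mul a.1)
    have hfun : ht p e a = fun s => Real.cos (2 * s) + a.1 * Real.sin (2 * s) +
        e * (kp a.1 s ^ 2 * q a s) := by
      funext s
      rw [ht, hqe a ha s]
    rw [hfun]
    have h5 := (hc.add (hs.const_mul a.1)).add (((hk.pow 2).mul hqd).const_mul e)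
    refine h5.congr_deriv ?_
    simp only [Pi.pow_apply]
    unfold kp
    ring
  have hC : ∀ a ∈ S, ∃ C, 0 < C ∧ ∀ t, |2 * (2 * Real.cos (2 * t) + a.1 * (2 * Real.sin (2 * t))) *
      q a t + kp a.1 t * deriv (q a) t| ≤ C := by
    intro a ha
    have hq1 := hqm a ha
    refine bdd_of_mem ?_ ?_
    · have h3 : Continuous (deriv (q a)) := hq1.1.continuous_deriv (by simp)
      have h4 : Continuous (q a) := hq1.1.continuous
      have h5 : Continuous (kp a.1) := (kp_mem a.1).1.continuous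
      fun_prop
    · intro t
      have h3 : deriv (q a) (t + 2 * Real.pi) = deriv (q a) t := by
        rw [← deriv_comp_add_const]
        congr 1
        funext s
        exact hq1.2 s
      have h4 := hq1.2 t
      have h5 := (kp_mem a.1).2 t
      have h6 := cos2_mem.2 t
      have h7 := sin2_mem.2 t
      simp only at h6 h7 ⊢
      rw [h3, h4, h5, h6, h7]
  choose! C hC0 hC1 using hC
  have hsum : ∀ a ∈ S, C a ≤ ∑ b ∈ S, C b := fun a ha =>
    Finset.single_le_sum (fun b hb => (hC0 b hb).le) ha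
  have hs0 : 0 ≤ ∑ b ∈ S, C b := Finset.sum_nonneg fun b hb => (hC0 b hb).le
  refine ⟨p, hp, 1 / (1 + ∑ b ∈ S, C b), by positivity, hp2, fun a ha t => ⟨fun h => ?_,
    fun h => ?_⟩⟩
  · rw [(hd a ha _ t).deriv, neg_eq_zero] at h
    rcases mul_eq_zero.1 h with h | h
    · exact h
    · exfalso
      have h3 := (le_abs_self _).trans (hC1 a ha t)
      have h4 := hsum a ha
      set X := 2 * (2 * Real.cos (2 * t) + a.1 * (2 * Real.sin (2 * t))) * q a t +
        kp a.1 t * deriv (q a) t with hX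
      have h5 : 1 / (1 + ∑ b ∈ S, C b) * X < 2 := by
        rw [div_mul_eq_mul_div, one_mul, div_lt_iff₀ (by positivity)]
        linarith
      linarith
  · rw [ht, hqe a ha t, h]
    ring

end Pool.Agent.Q140.FRM
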