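import Pool.Agent.Q140.FRM.Curve

/-!
# The frame
-/

set_option autoImplicit false

namespace Pool.Agent.Q140.FRM

open Set Filter Topology
open scoped ContDiff

variable {E : Type*} [NormedAddCommGroup E] [NormedSpace ℝ E]

/-- the curve -/
noncomputable def crv (p : ℝ → ℝ) (e : ℝ) (u v w : E) (t : ℝ) : E :=
  (Real.cos (2 * t) + e * p t) • u + Real.sin (2 * t) • v + (e * Real.cos t) • w

variable {p : ℝ → ℝ} {e : ℝ} {u v w : E}

theorem crv_smooth (hp : p ∈ PS) : ContDiff ℝ ∞ (crv p e u v w) := by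
  have h := hp.1
  unfold crv
  fun_prop

theorem crv_periodic (hp : p ∈ PS) : Function.Periodic (crv p e u v w) (2 * Real.pi) := by
  intro t
  have h6 := cos2_mem.2 t
  have h7 := sin2_mem.2 t
  simp only at h6 h7
  unfold crv
  rw [h6, h7, hp.2 t, Real.cos_periodic t]

theorem crv_deriv (hp : p ∈ PS) (t : ℝ) : HasDerivAt (crv p e u v w)
    ((-Real.sin (2 * t) * 2 + e * deriv p t) • u + (Real.cos (2 * t) * 2) • v +
      (e * -Real.sin t) • w) t := by
  have hpd : HasDerivAt p (deriv p t) t := (hp.1.differentiable (by simp) t).hasDerivAt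
  have hc : HasDerivAt (fun s => Real.cos (2 * s)) (-Real.sin (2 * t) * 2) t := by
    exact ((Real.hasDerivAt_cos (2 * t)).comp t ((hasDerivAt_id t).const_mul 2)).congr_deriv
      (by simp)
  have hs : HasDerivAt (fun s => Real.sin (2 * s)) (Real.cos (2 * t) * 2) t := by
    exact ((Real.hasDerivAt_sin (2 * t)).comp t ((hasDerivAt_id t).const_mul 2)).congr_deriv
      (by simp)
  exact (((hc.add (hpd.const_mul e)).smul_const u).add (hs.smul_const v)).add
    (((Real.hasDerivAt_cos t).const_mul e).smul_const w)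

section

variable (hind : ∀ x y z : ℝ, x • u + y • v + z • w = 0 → x = 0 ∧ y = 0 ∧ z = 0)
include hind

theorem crv_ne (hp : p ∈ PS) (he : e ≠ 0) (t : ℝ) : deriv (crv p e u v w) t ≠ 0 := by
  rw [(crv_deriv hp t).deriv]
  intro h
  obtain ⟨-, h1, h2⟩ := hind _ _ _ h
  have h3 : Real.sin t = 0 := by
    rcases mul_eq_zero.1 h2 with h | h
    · exact absurd h he
    · linarith
  have h4 := Real.cos_two_mul t
  have h5 := Real.sin_sq_add_cos_sq t
  rw [h3] at h5
  nlinarith

theorem crv_inj (hp : p ∈ PS) (he : e ≠ 0) (hne : p (Real.pi / 2) ≠ p (3 * Real.pi / 2))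
    (s t : ℝ) (h : crv p e u v w s = crv p e u v w t) : ∃ n : ℤ, s = t + n * (2 * Real.pi) := by
  have h1 : (Real.cos (2 * s) + e * p s - (Real.cos (2 * t) + e * p t)) • u +
      (Real.sin (2 * s) - Real.sin (2 * t)) • v + (e * Real.cos s - e * Real.cos t) • w = 0 := by
    have h2 := sub_eq_zero.2 h
    rw [← h2]
    unfold crv
    module
  obtain ⟨hx, hy, hz⟩ := hind _ _ _ h1
  have hcos : Real.cos s = Real.cos t := by
    rw [← mul_sub] at hz
    rcases mul_eq_zero.1 hz with h | h
    · exact absurd h he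
    · linarith
  have hpp : p s = p t := by
    have h3 : Real.cos (2 * s) = Real.cos (2 * t) := by
      rw [Real.cos_two_mul, Real.cos_two_mul, hcos]
    have h4 : e * (p s - p t) = 0 := by rw [h3] at hx; linarith
    rcases mul_eq_zero.1 h4 with h | h
    · exact absurd h he
    · linarith
  obtain ⟨k, hk⟩ := Real.cos_eq_cos_iff.1 hcos
  rcases hk with hk | hk
  · exact ⟨-k, by push_cast; linarith⟩
  · -- `t = 2 k π - s`
    have h5 : Real.sin (2 * t) = -Real.sin (2 * s) := by
      rw [hk, show 2 * (2 * (k : ℝ) * Real.pi - s) = -(2 * s) + ((2 * k : ℤ) : ℝ) * (2 * Real.pi) by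
        push_cast; ring, Real.sin_add_int_mul_two_pi, Real.sin_neg]
    have h6 : Real.sin (2 * s) = 0 := by linarith
    obtain ⟨n, hn⟩ := Real.sin_eq_zero_iff.1 h6
    -- `2 s = n π`
    have hs : s = n * Real.pi / 2 := by linarith
    rcases Int.even_or_odd' n with ⟨j, rfl | rfl⟩
    · refine ⟨j - k, ?_⟩
      rw [hk, hs]; push_cast; ring
    · exfalso
      apply hne
      have hper : ∀ (x : ℝ) (m : ℤ), p (x + m * (2 * Real.pi)) = p x := fun x m =>
        hp.2.int_mul m x
      rcases Int.even_or_odd' j with ⟨i, rfl | rfl⟩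
      · have e1 : p s = p (Real.pi / 2) := by
          rw [← hper (Real.pi / 2) i, hs]; congr 1; push_cast; ring
        have e2 : p t = p (3 * Real.pi / 2) := by
          rw [← hper (3 * Real.pi / 2) (k - i - 1), hk, hs]; congr 1; push_cast; ring
        rw [← e1, ← e2, hpp]
      · have e1 : p s = p (3 * Real.pi / 2) := by
          rw [← hper (3 * Real.pi / 2) i, hs]; congr 1; push_cast; ring
        have e2 : p t = p (Real.pi / 2) := by
          rw [← hper (Real.pi / 2) (k - i - 1), hk, hs]; congr 1; push_cast; ring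
        rw [← e1, ← e2, hpp]

theorem crv_critical (hp : p ∈ PS) (he : e ≠ 0) (hne : p (Real.pi / 2) ≠ p (3 * Real.pi / 2))
    {a : ℝ × ℝ} (ha : ∀ t, (deriv (ht p e a) t = 0 → kp a.1 t = 0) ∧
      (kp a.1 t = 0 → ht p e a t = Real.cos (2 * t) + a.1 * Real.sin (2 * t)))
    (η : E →L[ℝ] ℝ) (h1 : η u = 1) (h2 : η v = a.1) (h3 : η w = a.2)
    {H : ℂ → E} (hH : ContDiffOn ℝ 1 H Disk)
    (hi : ∀ z ∈ Disk, Function.Injective (fderivWithin ℝ H Disk z))
    (hb : H '' Metric.sphere 0 1 = range (crv p e u v w)) :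
    ∃ z ∈ Disk, ∀ x, η (fderivWithin ℝ H Disk z x) = 0 := by
  set h := crv p e u v w with hh
  have hη : ∀ t, η (h t) = ht p e a t := by
    intro t
    rw [hh, crv, map_add, map_add, map_smul, map_smul, map_smul, h1, h2, h3, ht]
    simp only [smul_eq_mul]
    ring
  have hη' : ∀ t, HasDerivAt (ht p e a) (η (deriv h t)) t := by
    intro t
    have h5 := η.hasFDerivAt.comp_hasDerivAt t (crv_deriv (e := e) (u := u) (v := v) (w := w) hp t)
    rw [← (crv_deriv (e := e) (u := u) (v := v) (w := w) hp t).deriv] at h5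
    exact h5.congr_of_eventuallyEq (Filter.Eventually.of_forall fun s => (hη s).symm)
  have hper : Function.Periodic (ht p e a) (2 * Real.pi) := by
    intro t
    rw [← hη, ← hη, hh, crv_periodic hp]
  have hcont : Continuous (ht p e a) :=
    continuous_iff_continuousAt.2 fun t => (hη' t).continuousAt
  set R := Real.sqrt (1 + a.1 ^ 2) with hR
  have hR2 : R ^ 2 = 1 + a.1 ^ 2 := Real.sq_sqrt (by positivity)
  have hR0 : 0 < R := Real.sqrt_pos.2 (by positivity)
  -- values at critical points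
  have hval : ∀ t, kp a.1 t = 0 → ht p e a t = R ∨ ht p e a t = -R := by
    intro t hk
    rw [(ha t).2 hk]
    refine sq_eq_sq_iff_eq_or_eq_neg.1 ?_
    unfold kp at hk
    have := Real.sin_sq_add_cos_sq (2 * t)
    rw [hR2]
    linear_combination (1 + a.1 ^ 2) * this -
      (Real.sin (2 * t) - a.1 * Real.cos (2 * t)) * hk
  have hcrit : ∀ t, η (deriv h t) = 0 → kp a.1 t = 0 := fun t h0 =>
    (ha t).1 (by rw [(hη' t).deriv, h0])
  have hle : ∀ t, ht p e a t ≤ R := by
    obtain ⟨x, hx, hmax⟩ := isCompact_Icc.exists_isMaxOn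
      (⟨0, le_rfl, by positivity⟩ : (Icc (0 : ℝ) (2 * Real.pi)).Nonempty) hcont.continuousOn
    have hglob : ∀ t, ht p e a t ≤ ht p e a x := by
      intro t
      obtain ⟨y, hy, hy2⟩ := hper.exists_mem_Ico (by positivity) t 0
      rw [hy2]
      exact hmax ⟨hy.1, by have := hy.2; linarith⟩
    intro t
    refine (hglob t).trans ?_
    have h0 : η (deriv h x) = 0 :=
      IsLocalMax.hasDerivAt_eq_zero (Filter.Eventually.of_forall hglob) (hη' x)
    rcases hval x (hcrit x h0) with h | h <;> rw [h]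
    linarith
  have hge : ∀ t, -R ≤ ht p e a t := by
    obtain ⟨x, hx, hmin⟩ := isCompact_Icc.exists_isMinOn
      (⟨0, le_rfl, by positivity⟩ : (Icc (0 : ℝ) (2 * Real.pi)).Nonempty) hcont.continuousOn
    have hglob : ∀ t, ht p e a x ≤ ht p e a t := by
      intro t
      obtain ⟨y, hy, hy2⟩ := hper.exists_mem_Ico (by positivity) t 0
      rw [hy2]
      exact hmin ⟨hy.1, by have := hy.2; linarith⟩
    intro t
    refine le_trans ?_ (hglob t)
    have h0 : η (deriv h x) = 0 :=
      IsLocalMin.hasDerivAt_eq_zero (Filter.Eventually.of_forall hglob) (hη' x)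
    rcases hval x (hcrit x h0) with h | h <;> rw [h]
    linarith
  -- the points with value `R`
  set t₀ := Complex.arg ⟨1 / R, a.1 / R⟩ / 2 with ht₀
  have hz : ‖(⟨1 / R, a.1 / R⟩ : ℂ)‖ = 1 := by
    rw [Complex.norm_def, Complex.normSq_mk, Real.sqrt_eq_one]
    field_simp
    linarith
  have hz0 : (⟨1 / R, a.1 / R⟩ : ℂ) ≠ 0 := by
    intro h0
    rw [h0, norm_zero] at hz
    exact zero_ne_one hz
  have hcos : Real.cos (2 * t₀) = 1 / R := by
    rw [ht₀, mul_div_cancel₀ _ two_ne_zero, Complex.cos_arg hz0, hz, div_one]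
  have hsin : Real.sin (2 * t₀) = a.1 / R := by
    rw [ht₀, mul_div_cancel₀ _ two_ne_zero, Complex.sin_arg, hz, div_one]
  have hk₀ : kp a.1 t₀ = 0 := by rw [kp, hcos, hsin]; ring
  have hv₀ : ht p e a t₀ = R := by
    rw [(ha t₀).2 hk₀, hcos, hsin]
    field_simp
    linarith
  have hcos' : Real.cos (2 * (t₀ + Real.pi)) = Real.cos (2 * t₀) := by
    rw [mul_add, Real.cos_add_two_pi]
  have hsin' : Real.sin (2 * (t₀ + Real.pi)) = Real.sin (2 * t₀) := by
    rw [mul_add, Real.sin_add_two_pi]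
  have hk₁ : kp a.1 (t₀ + Real.pi) = 0 := by rw [kp, hcos', hsin']; exact hk₀
  have hv₁ : ht p e a (t₀ + Real.pi) = R := by
    rw [(ha _).2 hk₁, hcos', hsin', ← (ha t₀).2 hk₀, hv₀]
  have hinj := crv_inj hind hp he hne
  refine exists_critical ((crv_smooth hp).differentiable (by simp)) (crv_periodic hp)
    (crv_ne hind hp he) hinj η (m := -R) (M := R) (fun t => (hη t).symm ▸ hge t)
    (fun t => (hη t).symm ▸ hle t) (fun t h0 => ?_) ?_ (t₁ := t₀) (t₂ := t₀ + Real.pi) ?_
    ((hη _).trans hv₀) ((hη _).trans hv₁) hH hi hb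
  · rw [← hh, hη]; exact hval t (hcrit t h0)
  · refine (Set.Finite.insert (h t₀) (Set.finite_singleton (h (t₀ + Real.pi)))).subset ?_
    rintro _ ⟨⟨t, rfl⟩, htR⟩
    rw [← hh, hη] at htR
    rw [← hh]
    have h0 : η (deriv h t) = 0 :=
      IsLocalMax.hasDerivAt_eq_zero (Filter.Eventually.of_forall fun s => htR ▸ hle s) (hη' t)
    have hk := hcrit t h0
    have h5 := (ha t).2 hk
    rw [htR] at h5
    unfold kp at hk
    have hc : Real.cos (2 * t) = 1 / R := by
      rw [eq_div_iff hR0.ne']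
      have := Real.sin_sq_add_cos_sq (2 * t)
      rw [h5]
      linear_combination this - Real.sin (2 * t) * hk
    have hs : Real.sin (2 * t) = a.1 / R := by
      have : Real.sin (2 * t) = a.1 * Real.cos (2 * t) := by linarith
      rw [this, hc]; ring
    obtain ⟨n, hn⟩ := (Complex.exp_eq_exp_iff_exists_int (x := ((2 * t : ℝ) : ℂ) * Complex.I)
      (y := ((2 * t₀ : ℝ) : ℂ) * Complex.I)).1 (by
        rw [Complex.exp_mul_I, Complex.exp_mul_I, ← Complex.ofReal_cos, ← Complex.ofReal_sin,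
          ← Complex.ofReal_cos, ← Complex.ofReal_sin, hc, hs, hcos, hsin])
    have hn' : t = t₀ + n * Real.pi := by
      have h7 := congrArg Complex.im hn
      simp at h7
      linarith
    rcases Int.even_or_odd' n with ⟨j, rfl | rfl⟩
    · left
      rw [hn', show t₀ + ((2 * j : ℤ) : ℝ) * Real.pi = t₀ + j * (2 * Real.pi) by push_cast; ring]
      exact (crv_periodic hp).int_mul j t₀
    · right
      rw [hn', show t₀ + ((2 * j + 1 : ℤ) : ℝ) * Real.pi = t₀ + Real.pi + j * (2 * Real.pi) by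
        push_cast; ring]
      exact (crv_periodic hp).int_mul j _
  · intro heq
    obtain ⟨n, hn⟩ := hinj _ _ heq
    have h5 : (1 + n * 2 : ℝ) * Real.pi = 0 := by linarith
    rcases mul_eq_zero.1 h5 with h | h
    · have : (1 + n * 2 : ℤ) = 0 := by exact_mod_cast h
      omega
    · exact Real.pi_ne_zero h

end

end Pool.Agent.Q140.FRM
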