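import Mathlib

/-!
# A function on the disk with many equal maxima and minima on the boundary has a critical point
-/

set_option autoImplicit false

namespace Pool.Agent.Q140.FRM

open Metric Set Complex Filter Topology

/-- the retraction of the plane to the closed unit disk -/
noncomputable def retr (z : ℂ) : ℂ := (max 1 ‖z‖)⁻¹ • z

theorem retr_cont : Continuous retr := by
  have h : Continuous fun z : ℂ => max 1 ‖z‖ := by fun_prop
  refine Continuous.smul (h.inv₀ fun z => ?_) continuous_id
  have : (1 : ℝ) ≤ max 1 ‖z‖ := le_max_left _ _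
  positivity

theorem retr_mem (z : ℂ) : retr z ∈ closedBall (0 : ℂ) 1 := by
  have h1 : (1 : ℝ) ≤ max 1 ‖z‖ := le_max_left _ _
  rw [mem_closedBall_zero_iff, retr, norm_smul, norm_inv, Real.norm_of_nonneg (by positivity),
    inv_mul_le_iff₀ (by positivity), mul_one]
  exact le_max_right _ _

theorem retr_of_mem {z : ℂ} (h : z ∈ closedBall (0 : ℂ) 1) : retr z = z := by
  rw [mem_closedBall_zero_iff] at h
  rw [retr, max_eq_left h, inv_one, one_smul]

/-- the point of the circle -/
noncomputable def ep (t : ℝ) : ℂ := exp (t * I)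

theorem ep_cont : Continuous ep := by unfold ep; fun_prop

theorem norm_ep (t : ℝ) : ‖ep t‖ = 1 := norm_exp_ofReal_mul_I t

theorem ep_mem (t : ℝ) : ep t ∈ closedBall (0 : ℂ) 1 := by
  rw [mem_closedBall_zero_iff, norm_ep]

theorem ep_period (t : ℝ) : ep (t + 2 * Real.pi) = ep t := by
  unfold ep
  push_cast
  rw [add_mul, exp_add, exp_two_pi_mul_I, mul_one]

/-- A continuous nonvanishing vector field on the disk turns by `-2π` with respect to the radial
direction, along the boundary. -/
theorem exists_angle {G : ℂ → ℂ} (hG : ContinuousOn G (closedBall 0 1))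
    (h0 : ∀ z ∈ closedBall (0 : ℂ) 1, G z ≠ 0) :
    ∃ (A r : ℝ → ℝ), Continuous A ∧ (∀ t, 0 < r t) ∧
      (∀ t, G (ep t) = (r t : ℂ) * exp ((t + A t : ℝ) * I)) ∧
      ∀ t, A (t + 2 * Real.pi) = A t - 2 * Real.pi := by
  have hc : Continuous (G ∘ retr) := by
    rw [← continuousOn_univ]
    exact hG.comp retr_cont.continuousOn fun z _ => retr_mem z
  have hs : IsSimplyConnected (univ : Set ℂ) := by
    have : SimplyConnectedSpace (univ : Set ℂ) := by
      have : ContractibleSpace (univ : Set ℂ) :=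
        (convex_univ).contractibleSpace ⟨0, mem_univ _⟩
      infer_instance
    rw [IsSimplyConnected]; exact this
  obtain ⟨L, hL, hL2⟩ := exists_continuousOn_eqOn_exp_comp hs isOpen_univ hc.continuousOn
    (by
      rintro ⟨z, -, hz⟩
      exact h0 _ (retr_mem z) hz)
  rw [continuousOn_univ] at hL
  refine ⟨fun t => (L (ep t)).im - t, fun t => Real.exp (L (ep t)).re, ?_, fun t => Real.exp_pos _,
    fun t => ?_, fun t => ?_⟩
  · exact ((continuous_im.comp (hL.comp ep_cont))).sub continuous_id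
  · have := hL2 (mem_univ (ep t))
    simp only [Function.comp_apply] at this
    rw [retr_of_mem (ep_mem t)] at this
    rw [← this, ofReal_exp, ← exp_add]
    congr 1
    apply Complex.ext <;> simp
  · simp only [ep_period]; ring

/-- the gradient as a complex number -/
noncomputable def grad (T : ℂ →L[ℝ] ℝ) : ℂ := ⟨T 1, T I⟩

theorem grad_apply (T : ℂ →L[ℝ] ℝ) (v : ℂ) : T v = (grad T).re * v.re + (grad T).im * v.im := by
  have h : v = v.re • (1 : ℂ) + v.im • I := by
    apply Complex.ext <;> simp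
  conv_lhs => rw [h]
  rw [map_add, map_smul, map_smul]
  simp [grad, mul_comm]

theorem grad_ne {T : ℂ →L[ℝ] ℝ} (h : T ≠ 0) : grad T ≠ 0 := by
  intro h0
  refine h (ContinuousLinearMap.ext fun v => ?_)
  rw [grad_apply, h0]; simp

theorem grad_cont : Continuous grad := by
  have h : grad = fun T : ℂ →L[ℝ] ℝ => ((T 1 : ℝ) : ℂ) + ((T I : ℝ) : ℂ) * I := by
    funext T
    apply Complex.ext <;> simp [grad]
  rw [h]
  fun_prop

/-- If all critical values of `φ = f|∂D` are `m` or `M`, these are taken alternately at four points,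
and `f` has no critical point in the disk, we have a contradiction. -/
theorem no_critical {f : ℂ → ℝ} {f' : ℂ → ℂ →L[ℝ] ℝ}
    (hf : ∀ z ∈ closedBall (0 : ℂ) 1, HasFDerivWithinAt f (f' z) (closedBall 0 1) z)
    (hc : ContinuousOn f' (closedBall 0 1)) (h0 : ∀ z ∈ closedBall (0 : ℂ) 1, f' z ≠ 0)
    {m M : ℝ} (hm : ∀ t, m ≤ f (ep t)) (hM : ∀ t, f (ep t) ≤ M)
    (hcr : ∀ t, f' (ep t) (I * ep t) = 0 → f (ep t) = M ∨ f (ep t) = m)
    {t₁ t₂ t₃ t₄ : ℝ} (h12 : t₁ < t₂) (h23 : t₂ < t₃) (h34 : t₃ < t₄) (h4 : t₄ < t₁ + 2 * Real.pi)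
    (e1 : f (ep t₁) = M) (e2 : f (ep t₂) = m) (e3 : f (ep t₃) = M) (e4 : f (ep t₄) = m) :
    False := by
  obtain ⟨A, r, hA, hr, hG, hper⟩ := exists_angle (G := fun z => grad (f' z))
    (grad_cont.comp_continuousOn hc) fun z hz => grad_ne (h0 z hz)
  -- radial and tangential derivatives
  have hrad : ∀ t, f' (ep t) (ep t) = r t * Real.cos (A t) := by
    intro t
    rw [grad_apply, hG t, ep, exp_mul_I, exp_mul_I]
    simp only [← ofReal_cos, ← ofReal_sin]
    simp only [mul_re, add_re, ofReal_re, ofReal_im, I_re, I_im, add_im, mul_im]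
    rw [Real.cos_add, Real.sin_add]
    have := Real.sin_sq_add_cos_sq t
    linear_combination (r t * Real.cos (A t)) * this
  have htan : ∀ t, f' (ep t) (I * ep t) = r t * Real.sin (A t) := by
    intro t
    rw [grad_apply, hG t, ep, exp_mul_I, exp_mul_I]
    simp only [← ofReal_cos, ← ofReal_sin]
    simp only [mul_re, add_re, ofReal_re, ofReal_im, I_re, I_im, add_im, mul_im]
    rw [Real.cos_add, Real.sin_add]
    have := Real.sin_sq_add_cos_sq t
    linear_combination (r t * Real.sin (A t)) * this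
  have hder : ∀ t, HasDerivAt (fun s => f (ep s)) (r t * Real.sin (A t)) t := by
    intro t
    rw [← htan t]
    have h1 : HasDerivAt ep (I * ep t) t := by
      have h2 : HasDerivAt (fun s : ℝ => (s : ℂ) * I) (1 * I) t :=
        (Complex.ofRealCLM.hasDerivAt (x := t)).mul_const I
      have := h2.cexp
      unfold ep
      convert this using 1
      ring
    have h3 := (hf _ (ep_mem t)).comp_hasDerivWithinAt (s := univ) t
      (h1.hasDerivWithinAt (s := univ)) fun s _ => ep_mem s
    exact h3.hasDerivAt univ_mem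
  -- the range of `f` on the disk
  have hcont : ContinuousOn f (closedBall 0 1) := fun z hz => (hf z hz).continuousWithinAt
  have hbd : ∀ z ∈ closedBall (0 : ℂ) 1, ‖z‖ = 1 → ∃ t, z = ep t := by
    intro z _ h1
    refine ⟨arg z, ?_⟩
    have := norm_mul_exp_arg_mul_I z
    rw [h1, ofReal_one, one_mul] at this
    exact this.symm
  have hint : ∀ z ∈ closedBall (0 : ℂ) 1, ‖z‖ ≠ 1 → HasFDerivAt f (f' z) z := by
    intro z hz h1
    refine (hf z hz).hasFDerivAt ?_
    rw [mem_closedBall_zero_iff] at hz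
    refine mem_of_superset (isOpen_ball.mem_nhds ?_) (ball_subset_closedBall)
    rw [mem_ball_zero_iff]
    exact lt_of_le_of_ne hz h1
  have hle : ∀ z ∈ closedBall (0 : ℂ) 1, f z ≤ M := by
    obtain ⟨z₀, hz₀, hmax⟩ := (isCompact_closedBall (0 : ℂ) 1).exists_isMaxOn
      ⟨0, mem_closedBall_self zero_le_one⟩ hcont
    intro z hz
    refine (hmax hz).trans ?_
    show f z₀ ≤ M
    by_cases h1 : ‖z₀‖ = 1
    · obtain ⟨t, ht⟩ := hbd z₀ hz₀ h1
      rw [ht]; exact hM t
    · exfalso
      refine h0 z₀ hz₀ ((IsLocalMax.hasFDerivAt_eq_zero ?_ (hint z₀ hz₀ h1)))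
      refine hmax.isLocalMax ?_
      rw [mem_closedBall_zero_iff] at hz₀
      refine mem_of_superset (isOpen_ball.mem_nhds ?_) (ball_subset_closedBall)
      rw [mem_ball_zero_iff]
      exact lt_of_le_of_ne hz₀ h1
  have hge : ∀ z ∈ closedBall (0 : ℂ) 1, m ≤ f z := by
    obtain ⟨z₀, hz₀, hmin⟩ := (isCompact_closedBall (0 : ℂ) 1).exists_isMinOn
      ⟨0, mem_closedBall_self zero_le_one⟩ hcont
    intro z hz
    refine le_trans ?_ (hmin hz)
    show m ≤ f z₀
    by_cases h1 : ‖z₀‖ = 1
    · obtain ⟨t, ht⟩ := hbd z₀ hz₀ h1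
      rw [ht]; exact hm t
    · exfalso
      refine h0 z₀ hz₀ ((IsLocalMin.hasFDerivAt_eq_zero ?_ (hint z₀ hz₀ h1)))
      refine hmin.isLocalMin ?_
      rw [mem_closedBall_zero_iff] at hz₀
      refine mem_of_superset (isOpen_ball.mem_nhds ?_) (ball_subset_closedBall)
      rw [mem_ball_zero_iff]
      exact lt_of_le_of_ne hz₀ h1
  -- the radial derivative as a one-sided derivative
  have hray : ∀ t, HasDerivWithinAt (fun s : ℝ => f (s • ep t)) (r t * Real.cos (A t))
      (Icc 0 1) 1 := by
    intro t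
    rw [← hrad t]
    have h1 : HasDerivWithinAt (fun s : ℝ => s • ep t) (ep t) (Icc 0 1) 1 := by
      have := ((hasDerivAt_id (1 : ℝ)).smul_const (ep t)).hasDerivWithinAt (s := Icc 0 1)
      simpa using this
    have h2 : HasFDerivWithinAt f (f' (ep t)) (closedBall 0 1) ((1 : ℝ) • ep t) := by
      rw [one_smul]; exact hf _ (ep_mem t)
    refine h2.comp_hasDerivWithinAt (1 : ℝ) h1 fun s hs => ?_
    rw [mem_closedBall_zero_iff, norm_smul, norm_ep, mul_one, Real.norm_of_nonneg hs.1]
    exact hs.2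
  have hmax' : ∀ t, f (ep t) = M → Real.sin (A t) = 0 ∧ Real.cos (A t) = 1 := by
    intro t ht
    have h1 : r t * Real.sin (A t) = 0 := by
      refine IsLocalMax.hasDerivAt_eq_zero ?_ (hder t)
      refine Filter.Eventually.of_forall fun s => ?_
      show f (ep s) ≤ f (ep t)
      rw [ht]; exact hM s
    have h2 : Real.sin (A t) = 0 := by
      rcases mul_eq_zero.1 h1 with h | h
      · exact absurd h (hr t).ne'
      · exact h
    refine ⟨h2, ?_⟩
    have h3 : 0 ≤ r t * Real.cos (A t) := by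
      by_contra hneg
      push Not at hneg
      have h5 : IsLocalMinOn (fun s : ℝ => -f (s • ep t)) (Icc 0 1) 1 := by
        refine eventually_mem_nhdsWithin.mono fun s hs => ?_
        simp only [one_smul, ht, neg_le_neg_iff]
        refine hle _ ?_
        rw [mem_closedBall_zero_iff, norm_smul, norm_ep, mul_one, Real.norm_of_nonneg hs.1]
        exact hs.2
      have h6 := h5.hasFDerivWithinAt_nonneg (hray t).neg.hasFDerivWithinAt (y := -1)
        (mem_posTangentConeAt_of_segment_subset (by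
          rw [segment_symm, segment_eq_Icc (by norm_num)]
          norm_num))
      simp at h6
      linarith
    have h4 : Real.cos (A t) = 1 ∨ Real.cos (A t) = -1 := Real.sin_eq_zero_iff_cos_eq.1 h2
    rcases h4 with h | h
    · exact h
    · rw [h] at h3
      nlinarith [hr t]
  have hmin' : ∀ t, f (ep t) = m → Real.sin (A t) = 0 ∧ Real.cos (A t) = -1 := by
    intro t ht
    have h1 : r t * Real.sin (A t) = 0 := by
      refine IsLocalMin.hasDerivAt_eq_zero ?_ (hder t)
      refine Filter.Eventually.of_forall fun s => ?_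
      show f (ep t) ≤ f (ep s)
      rw [ht]; exact hm s
    have h2 : Real.sin (A t) = 0 := by
      rcases mul_eq_zero.1 h1 with h | h
      · exact absurd h (hr t).ne'
      · exact h
    refine ⟨h2, ?_⟩
    have h3 : r t * Real.cos (A t) ≤ 0 := by
      by_contra hneg
      push Not at hneg
      have h5 : IsLocalMinOn (fun s : ℝ => f (s • ep t)) (Icc 0 1) 1 := by
        refine eventually_mem_nhdsWithin.mono fun s hs => ?_
        simp only [one_smul, ht]
        refine hge _ ?_
        rw [mem_closedBall_zero_iff, norm_smul, norm_ep, mul_one, Real.norm_of_nonneg hs.1]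
        exact hs.2
      have h6 := h5.hasFDerivWithinAt_nonneg (hray t).hasFDerivWithinAt (y := -1)
        (mem_posTangentConeAt_of_segment_subset (by
          rw [segment_symm, segment_eq_Icc (by norm_num)]
          norm_num))
      simp at h6
      linarith
    have h4 : Real.cos (A t) = 1 ∨ Real.cos (A t) = -1 := Real.sin_eq_zero_iff_cos_eq.1 h2
    rcases h4 with h | h
    · rw [h] at h3
      nlinarith [hr t]
    · exact h
  -- the angle does not grow beyond a multiple of `π`
  have hcross : ∀ (j : ℤ) (a b : ℝ), a ≤ b → A a ≤ j * Real.pi → A b ≤ j * Real.pi := by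
    intro j a b hab ha
    by_contra hb
    push Not at hb
    set S := {t ∈ Icc a b | A t ≤ j * Real.pi} with hS
    have hSc : IsCompact S :=
      isCompact_Icc.inter_right (isClosed_Iic.preimage hA)
    obtain ⟨s, hs, hsmax⟩ := hSc.exists_isMaxOn ⟨a, ⟨le_rfl, hab⟩, ha⟩ continuousOn_id
    have hsb : s < b := by
      refine lt_of_le_of_ne hs.1.2 ?_
      rintro rfl
      exact absurd hs.2 (not_le.2 hb)
    have hgt : ∀ t ∈ Ioc s b, j * Real.pi < A t := by
      intro t ht
      by_contra hle'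
      push Not at hle'
      have : t ≤ s := hsmax (show t ∈ S from ⟨⟨hs.1.1.trans ht.1.le, ht.2⟩, hle'⟩)
      exact absurd ht.1 (not_lt.2 this)
    have hAs : A s = j * Real.pi := by
      refine le_antisymm hs.2 ?_
      refine ge_of_tendsto (x := 𝓝[>] s) ((hA.tendsto s).mono_left nhdsWithin_le_nhds) ?_
      filter_upwards [Ioc_mem_nhdsGT hsb] with t ht
      exact (hgt t ht).le
    have hsin : Real.sin (A s) = 0 := by rw [hAs]; exact Real.sin_int_mul_pi j
    have hcs : Real.cos (A s) = 1 ∧ f (ep s) = M ∨ Real.cos (A s) = -1 ∧ f (ep s) = m := by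
      rcases hcr s (by rw [htan, hsin, mul_zero]) with h | h
      · exact Or.inl ⟨(hmax' s h).2, h⟩
      · exact Or.inr ⟨(hmin' s h).2, h⟩
    -- near `s`
    have hnear : ∀ᶠ t in 𝓝[>] s, A t < j * Real.pi + Real.pi := by
      have : ∀ᶠ t in 𝓝 s, A t < j * Real.pi + Real.pi :=
        hA.continuousAt.eventually_lt_const (by rw [hAs]; linarith [Real.pi_pos])
      exact this.filter_mono nhdsWithin_le_nhds
    obtain ⟨u, hu, hsu⟩ := mem_nhdsGT_iff_exists_Ioc_subset.1
      (hnear.and (Ioc_mem_nhdsGT hsb))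
    rw [mem_Ioi] at hu
    have hsinpos : ∀ t ∈ Ioo s u, 0 < Real.cos (A s) * Real.sin (A t) := by
      intro t ht
      have h1 := hsu ⟨ht.1, ht.2.le⟩
      have h2 := hgt t h1.2
      have h3 : 0 < Real.sin (A t - j * Real.pi) :=
        Real.sin_pos_of_pos_of_lt_pi (by linarith) (by linarith [h1.1])
      rw [Real.sin_sub, Real.sin_int_mul_pi, mul_zero, sub_zero, ← hAs, mul_comm] at h3
      exact h3
    have hmono : StrictMonoOn (fun t => Real.cos (A s) * f (ep t)) (Icc s u) := by
      refine strictMonoOn_of_deriv_pos (convex_Icc _ _) ?_ ?_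
      · have : Continuous fun t => f (ep t) :=
          continuous_iff_continuousAt.2 fun t => (hder t).continuousAt
        exact (continuous_const.mul this).continuousOn
      · intro t ht
        rw [interior_Icc] at ht
        have := ((hder t).const_mul (Real.cos (A s))).deriv
        rw [this]
        have h1 := hsinpos t ht
        have h2 := hr t
        nlinarith [mul_pos h1 h2]
    have hfin := hmono ⟨le_rfl, hu.le⟩ ⟨hu.le, le_rfl⟩ hu
    simp only at hfin
    rcases hcs with ⟨h1, h2⟩ | ⟨h1, h2⟩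
    · rw [h1, h2] at hfin
      linarith [hM u]
    · rw [h1, h2] at hfin
      linarith [hm u]
  -- counting
  have hint' : ∀ t, Real.sin (A t) = 0 ∧ Real.cos (A t) = 1 → ∃ a : ℤ, A t = (2 * a : ℤ) * Real.pi := by
    rintro t ⟨-, h⟩
    obtain ⟨a, ha⟩ := (Real.cos_eq_one_iff _).1 h
    exact ⟨a, by push_cast; linarith⟩
  have hint'' : ∀ t, Real.sin (A t) = 0 ∧ Real.cos (A t) = -1 →
      ∃ a : ℤ, A t = (2 * a + 1 : ℤ) * Real.pi := by
    rintro t ⟨-, h⟩
    obtain ⟨a, ha⟩ := Real.cos_eq_neg_one_iff.1 h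
    exact ⟨a, by push_cast; linarith⟩
  obtain ⟨a1, ha1⟩ := hint' t₁ (hmax' _ e1)
  obtain ⟨a2, ha2⟩ := hint'' t₂ (hmin' _ e2)
  obtain ⟨a3, ha3⟩ := hint' t₃ (hmax' _ e3)
  obtain ⟨a4, ha4⟩ := hint'' t₄ (hmin' _ e4)
  have hle12 := hcross _ _ _ h12.le ha1.le
  have hle23 := hcross _ _ _ h23.le ha2.le
  have hle34 := hcross _ _ _ h34.le ha3.le
  have hle45 := hcross _ _ _ h4.le ha4.le
  rw [hper, ha1] at hle45
  rw [ha2] at hle12
  rw [ha3] at hle23
  rw [ha4] at hle34
  have hpi := Real.pi_pos
  have k1 : (2 * a2 + 1 : ℤ) ≤ 2 * a1 := by exact_mod_cast le_of_mul_le_mul_right hle12 hpi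
  have k2 : (2 * a3 : ℤ) ≤ 2 * a2 + 1 := by exact_mod_cast le_of_mul_le_mul_right hle23 hpi
  have k3 : (2 * a4 + 1 : ℤ) ≤ 2 * a3 := by exact_mod_cast le_of_mul_le_mul_right hle34 hpi
  have k4 : (2 * a1 - 2 : ℤ) ≤ 2 * a4 + 1 := by
    have : ((2 * a1 - 2 : ℤ) : ℝ) * Real.pi ≤ ((2 * a4 + 1 : ℤ) : ℝ) * Real.pi := by
      push_cast at hle45 ⊢
      linarith
    exact_mod_cast le_of_mul_le_mul_right this hpi
  omega

end Pool.Agent.Q140.FRM
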